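import Pool.Agent.H48.GEN.LevD

/-!
# Weights and images of laws

If `p` is the image of `p'` under `f`, then the law `p'` with a weight has the image `p` with the
mean weight of the fibres.
-/

set_option autoImplicit false

namespace Pool.WTS

open Finset Real
open Pool.Agent.H49.Ent Pool.Agent.H32.Dense Pool.STK
open Pool.LEV (wt)

variable {Ω Ω' S U : Type} [Fintype Ω] [Fintype Ω']

open Classical in
/-- The mass of the weight over a point. -/
noncomputable def fw (p' W' : Ω' → ℝ) (f : Ω' → Ω) (ω : Ω) : ℝ :=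
  ∑ v, if f v = ω then p' v * W' v else 0

open Classical in
/-- The mean weight of the fibres. -/
noncomputable def mw (p : Ω → ℝ) (p' W' : Ω' → ℝ) (f : Ω' → Ω) (ω : Ω) : ℝ :=
  fw p' W' f ω / p ω

variable {p : Ω → ℝ} {p' W' : Ω' → ℝ} {f : Ω' → Ω}

omit [Fintype Ω] in
theorem fw_nonneg (hp' : ∀ v, 0 ≤ p' v) (hW : ∀ v, 0 ≤ W' v) (ω : Ω) : 0 ≤ fw p' W' f ω := by
  classical
  unfold fw
  refine Finset.sum_nonneg fun v _ => ?_
  split_ifs
  · exact mul_nonneg (hp' v) (hW v)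
  · exact le_rfl

omit [Fintype Ω] in
theorem fw_le (h : Marg p' p f) (hp' : ∀ v, 0 ≤ p' v) (hW1 : ∀ v, W' v ≤ 1) (ω : Ω) :
    fw p' W' f ω ≤ p ω := by
  classical
  rw [← h ω]
  unfold fw
  refine Finset.sum_le_sum fun v _ => ?_
  split_ifs
  · have := mul_le_mul_of_nonneg_left (hW1 v) (hp' v)
    rwa [mul_one] at this
  · exact le_rfl

theorem mul_mw (h : Marg p' p f) (hp' : ∀ v, 0 ≤ p' v) (hW : ∀ v, 0 ≤ W' v) (hW1 : ∀ v, W' v ≤ 1)
    (ω : Ω) : p ω * mw p p' W' f ω = fw p' W' f ω := by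
  unfold mw
  by_cases h0 : p ω = 0
  · have h1 := fw_le h hp' hW1 ω
    have h2 := fw_nonneg (f := f) hp' hW ω
    rw [h0] at h1 ⊢
    rw [zero_mul]
    exact le_antisymm h2 h1
  · exact mul_div_cancel₀ _ h0

theorem sum_fw (p' W' : Ω' → ℝ) (f : Ω' → Ω) : ∑ ω, fw p' W' f ω = ∑ v, p' v * W' v := by
  classical
  unfold fw
  rw [Finset.sum_comm]
  refine Finset.sum_congr rfl fun v _ => ?_
  simp

/-- **Weights through an image.** -/
theorem wts (h : Marg p' p f) (hp : ∀ ω, 0 ≤ p ω) (hp' : ∀ v, 0 ≤ p' v) (hW : ∀ v, 0 ≤ W' v)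
    (hW1 : ∀ v, W' v ≤ 1) :
    ∃ g : Ω → ℝ, (∀ ω, 0 ≤ g ω) ∧ (∀ ω, g ω ≤ 1) ∧ ∑ ω, p ω * g ω = ∑ v, p' v * W' v ∧
      (∀ E : Ω → Prop, [DecidablePred E] → ∑ v, (if E (f v) then p' v * W' v else 0) =
        ∑ ω, if E ω then p ω * g ω else 0) ∧
      Marg (wt p' W') (wt p g) f ∧
      ∀ {S U : Type} (X : Ω → S) (Y : Ω → U),
        CH (wt p' W') (fun v => X (f v)) (fun v => Y (f v)) = CH (wt p g) X Y := by
  classical
  have key := mul_mw h hp' hW hW1
  have hs : ∑ ω, p ω * mw p p' W' f ω = ∑ v, p' v * W' v := by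
    rw [Finset.sum_congr rfl fun ω _ => key ω]
    exact sum_fw p' W' f
  have hm : Marg (wt p' W') (wt p (mw p p' W' f)) f := by
    intro ω
    unfold wt
    rw [hs, key]
    unfold fw
    rw [Finset.sum_div]
    refine Finset.sum_congr rfl fun v _ => ?_
    split_ifs
    · rfl
    · rw [zero_div]
  refine ⟨mw p p' W' f, fun ω => ?_, fun ω => ?_, hs, fun E _ => ?_, hm, fun X Y => hm.CH X Y⟩
  · exact div_nonneg (fw_nonneg hp' hW ω) (hp ω)
  · unfold mw
    rcases (hp ω).eq_or_lt with h0 | h0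
    · rw [← h0, div_zero]
      exact zero_le_one
    · rw [div_le_one h0]
      exact fw_le h hp' hW1 ω
  · have e1 : ∀ ω, (if E ω then p ω * mw p p' W' f ω else 0) =
        ∑ v, if f v = ω then (if E (f v) then p' v * W' v else 0) else 0 := by
      intro ω
      by_cases hE : E ω
      · rw [if_pos hE, key ω]
        unfold fw
        refine Finset.sum_congr rfl fun v _ => ?_
        by_cases hv : f v = ω
        · rw [if_pos hv, if_pos hv, if_pos (hv ▸ hE)]
        · rw [if_neg hv, if_neg hv]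
      · rw [if_neg hE]
        refine (Finset.sum_eq_zero fun v _ => ?_).symm
        by_cases hv : f v = ω
        · rw [if_pos hv, if_neg (hv ▸ hE)]
        · rw [if_neg hv]
    rw [Finset.sum_congr rfl fun ω _ => e1 ω, Finset.sum_comm]
    refine Finset.sum_congr rfl fun v _ => ?_
    simp

end Pool.WTS
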